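import Pool.Agent.W307.FK.Stm

/-! Project FK: the second moment in short squares, change of variables. -/

set_option autoImplicit false

namespace Pool.Agent.W736.FK

open Finset Pool.Agent.W262.RK Pool.Agent.W307.RT Pool.Agent.W307.RS Pool.Agent.W307.SE
  Pool.Agent.W307.FK

lemma size_aux (X B : ℕ) (hX : 1 ≤ X) (N1 N2 : ℤ) (h1 : N1.natAbs ≤ X ^ B)
    (h2 : N2.natAbs ≤ X ^ B) : (N2 - 2 * N1 - 2 * X).natAbs ≤ (3 * X) ^ (B + 2) := by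
  have e1 : (N2 - 2 * N1 - 2 * X).natAbs ≤ N2.natAbs + 2 * N1.natAbs + 2 * X := by
    omega
  have hXB : X ^ B ≤ X ^ (B + 2) := Nat.pow_le_pow_right hX (by omega)
  have hX1 : X ≤ X ^ (B + 2) := by
    calc X = X ^ 1 := (pow_one X).symm
      _ ≤ X ^ (B + 2) := Nat.pow_le_pow_right hX (by omega)
  have e3 : 5 ≤ 3 ^ (B + 2) := by
    calc 5 ≤ 3 ^ 2 := by norm_num
      _ ≤ 3 ^ (B + 2) := Nat.pow_le_pow_right (by norm_num) (by omega)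
  rw [mul_pow]
  have e4 : 5 * X ^ (B + 2) ≤ 3 ^ (B + 2) * X ^ (B + 2) := Nat.mul_le_mul_right _ e3
  omega

theorem avgn_of (h : Pool.Agent.W307.FK.AVGF) : Pool.Agent.W307.FK.AVGN := by
  classical
  intro B
  obtain ⟨C, hC0, hC⟩ := h (B + 2)
  refine ⟨C * 9, by positivity, ?_⟩
  intro D N1 N2 X hD hX hN1 hN2
  set X' : ℕ := 3 * X with hX'
  have hXX' : X ≤ X' := by omega
  have hX'1 : 1 ≤ X' := hX.trans hXX'
  set N2' : ℤ := N2 - 2 * N1 - 2 * X with hN2'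
  have hb1 : N1.natAbs ≤ X' ^ (B + 2) :=
    hN1.trans ((Nat.pow_le_pow_left hXX' B).trans (Nat.pow_le_pow_right hX'1 (by omega)))
  have hb2 : N2'.natAbs ≤ X' ^ (B + 2) := size_aux X B hX N1 N2 hN1 hN2
  have key := hC D N1 N2' X' hD hX'1 hb1 hb2
  set H : ℕ × ℕ → ℝ := fun t => if IsCoprime (N1 + (t.1 : ℤ)) (N2' + (t.2 : ℤ)) ∧
      ∀ j, fF (N1 + (t.1 : ℤ)) (N2' + (t.2 : ℤ)) j ≠ 0 then
    ((Sel (D * fF (N1 + (t.1 : ℤ)) (N2' + (t.2 : ℤ)) 0)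
      (D * fF (N1 + (t.1 : ℤ)) (N2' + (t.2 : ℤ)) 1)).ncard : ℝ) ^ 2 else 0 with hH
  have hH0 : ∀ t, 0 ≤ H t := by
    intro t
    rw [hH]
    simp only
    split_ifs
    · positivity
    · exact le_rfl
  set φ : ℕ × ℕ → ℕ × ℕ := fun t => (t.1, t.2 + 2 * (X - t.1)) with hφ
  have hpt : ∀ t ∈ Icc 1 X ×ˢ Icc 1 X,
      SS D (N1 + (t.1 : ℤ), N2 + (t.2 : ℤ)) ≤ H (φ t) := by
    intro t ht
    rw [mem_product, mem_Icc, mem_Icc] at ht
    have hv : N2' + ((φ t).2 : ℤ) = (N2 + (t.2 : ℤ)) - 2 * (N1 + (t.1 : ℤ)) := by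
      rw [hφ, hN2']
      simp only
      push_cast [Nat.cast_sub ht.1.2]
      ring
    have hu : ((φ t).1 : ℤ) = (t.1 : ℤ) := rfl
    have hcop : IsCoprime (N1 + (t.1 : ℤ)) (N2' + ((φ t).2 : ℤ)) ↔
        IsCoprime (N1 + (t.1 : ℤ)) (N2 + (t.2 : ℤ)) := by
      have : N2' + ((φ t).2 : ℤ) = N2 + (t.2 : ℤ) + (-2) * (N1 + (t.1 : ℤ)) := by
        rw [hv]; ring
      rw [this]
      exact IsCoprime.add_mul_right_right_iff
    have f0 : fF (N1 + ((φ t).1 : ℤ)) (N2' + ((φ t).2 : ℤ)) 0 = N1 + (t.1 : ℤ) := by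
      rw [hv, hu]
      simp only [fF, fv, αF, βF, Matrix.cons_val_zero]
      ring
    have f1 : fF (N1 + ((φ t).1 : ℤ)) (N2' + ((φ t).2 : ℤ)) 1 = N2 + (t.2 : ℤ) := by
      rw [hv, hu]
      simp only [fF, fv, αF, βF, Matrix.cons_val_one, Matrix.cons_val_zero]
      ring
    have f2 : fF (N1 + ((φ t).1 : ℤ)) (N2' + ((φ t).2 : ℤ)) 2 =
        (N1 + (t.1 : ℤ)) - (N2 + (t.2 : ℤ)) := by
      rw [hv, hu]
      simp only [fF, fv, αF, βF, Matrix.cons_val]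
      ring
    unfold SS
    simp only
    split_ifs with hc
    · have hcond : IsCoprime (N1 + ((φ t).1 : ℤ)) (N2' + ((φ t).2 : ℤ)) ∧
          ∀ j, fF (N1 + ((φ t).1 : ℤ)) (N2' + ((φ t).2 : ℤ)) j ≠ 0 := by
        refine ⟨hcop.mpr hc.1, ?_⟩
        intro k
        fin_cases k
        · change fF _ _ 0 ≠ 0
          rw [f0]; exact hc.2.1
        · change fF _ _ 1 ≠ 0
          rw [f1]; exact hc.2.2.1
        · change fF _ _ 2 ≠ 0
          rw [f2]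
          exact sub_ne_zero.2 hc.2.2.2
      have e2 : H (φ t) = ((Sel (D * fF (N1 + ((φ t).1 : ℤ)) (N2' + ((φ t).2 : ℤ)) 0)
          (D * fF (N1 + ((φ t).1 : ℤ)) (N2' + ((φ t).2 : ℤ)) 1)).ncard : ℝ) ^ 2 := by
        rw [hH]
        simp only
        rw [if_pos hcond]
      rw [e2, f0, f1]
    · exact hH0 _
  have hinj : Set.InjOn φ (Icc 1 X ×ˢ Icc 1 X : Finset (ℕ × ℕ)) := by
    intro t _ t' _ htt
    rw [hφ] at htt
    simp only [Prod.mk.injEq] at htt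
    obtain ⟨h1, h2⟩ := htt
    rw [h1] at h2
    exact Prod.ext h1 (by omega)
  have hmaps : (Icc 1 X ×ˢ Icc 1 X : Finset (ℕ × ℕ)).image φ ⊆ Icc 1 X' ×ˢ Icc 1 X' := by
    intro t' ht'
    obtain ⟨t, ht, rfl⟩ := mem_image.mp ht'
    rw [mem_product, mem_Icc, mem_Icc] at ht
    rw [mem_product, mem_Icc, mem_Icc, hφ]
    simp only
    refine ⟨⟨ht.1.1, ht.1.2.trans hXX'⟩, ?_, ?_⟩
    · omega
    · omega
  calc ∑ t ∈ Icc 1 X ×ˢ Icc 1 X, SS D (N1 + (t.1 : ℤ), N2 + (t.2 : ℤ))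
      ≤ ∑ t ∈ Icc 1 X ×ˢ Icc 1 X, H (φ t) := sum_le_sum hpt
    _ = ∑ t' ∈ (Icc 1 X ×ˢ Icc 1 X : Finset (ℕ × ℕ)).image φ, H t' := (sum_image hinj).symm
    _ ≤ ∑ t' ∈ Icc 1 X' ×ˢ Icc 1 X', H t' :=
        sum_le_sum_of_subset_of_nonneg hmaps (fun t _ _ => hH0 t)
    _ ≤ C * 128 ^ D.natAbs.primeFactors.card * (X' : ℝ) ^ 2 := by
        rw [hH]
        simp only
        rw [← sum_filter]
        exact key
    _ = C * 9 * 128 ^ D.natAbs.primeFactors.card * X ^ 2 := by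
        rw [hX']
        push_cast
        ring

end Pool.Agent.W736.FK
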